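import Mathlib

set_option autoImplicit false

namespace Pool.Agent.Results.MP_2c87a3_an.DistributedNotSpectral

/-- the Fourier transform `(1/|E|) ∑_{a ∈ E} exp(-2 π i ξ a)` of the uniform measure on `E`. -/
noncomputable def nuHat (E : Finset ℕ) (ξ : ℝ) : ℂ :=
  (1 / (E.card : ℂ)) * ∑ a ∈ E, Complex.exp (-2 * Real.pi * Complex.I * ξ * a)

/-- `(A, B)` is a spectral pair in `ℤ_N`. -/
def SpectralPair (N : ℕ) (A B : Finset ℕ) : Prop :=
  ∀ b ∈ B, ∀ b' ∈ B, b ≠ b' → nuHat A (((b : ℝ) - b') / N) = 0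

/-- `(A, B)` is a distributed spectral pair in `{0, …, M-1}`. -/
def Distributed (M : ℕ) (A B : Finset ℕ) : Prop :=
  ∀ b ∈ B, ∀ b' ∈ B, b ≠ b' → nuHat A (((b : ℝ) - b') / M) = 0 ∨
    ∀ d ∈ B, ∀ d' ∈ B, nuHat A (((b : ℝ) - b') / (M : ℝ) ^ 2 + ((d : ℝ) - d') / M) = 0

lemma exp_neg_one (t : ℝ) :
    Complex.exp (-2 * Real.pi * Complex.I * t) = -1 ↔ ∃ n : ℤ, t = 1 / 2 + n := by
  rw [← Complex.exp_pi_mul_I, Complex.exp_eq_exp_iff_exists_int]
  have hpi : (Real.pi : ℂ) ≠ 0 := by exact_mod_cast Real.pi_ne_zero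
  constructor
  · rintro ⟨n, hn⟩
    refine ⟨-n - 1, ?_⟩
    have h1 : (Real.pi : ℂ) * Complex.I * (-2 * t - 1 - 2 * n) = 0 := by linear_combination hn
    have h2 : (-2 * (t : ℂ) - 1 - 2 * n) = 0 := by
      rcases mul_eq_zero.1 h1 with h | h
      · exact absurd h (mul_ne_zero hpi Complex.I_ne_zero)
      · exact h
    have h3 : (-2 * t - 1 - 2 * n : ℝ) = 0 := by exact_mod_cast h2
    push_cast
    linarith
  · rintro ⟨n, hn⟩
    refine ⟨-n - 1, ?_⟩
    rw [hn]
    push_cast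
    ring

/-- the sets of the counterexample, with `M = 24`. -/
def A : Finset ℕ := {0, 4, 16, 20}
def B : Finset ℕ := {0, 3, 18, 21}

lemma nuHat_A (ξ : ℝ) : nuHat A ξ = 0 ↔
    (∃ n : ℤ, 4 * ξ = 1 / 2 + n) ∨ ∃ n : ℤ, 16 * ξ = 1 / 2 + n := by
  have key : nuHat A ξ = (1 / 4) * ((Complex.exp (-2 * Real.pi * Complex.I * ((4 * ξ : ℝ) : ℂ)) + 1) *
      (Complex.exp (-2 * Real.pi * Complex.I * ((16 * ξ : ℝ) : ℂ)) + 1)) := by
    unfold nuHat A
    have hc : (({0, 4, 16, 20} : Finset ℕ).card : ℂ) = 4 := by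
      have : ({0, 4, 16, 20} : Finset ℕ).card = 4 := by decide
      rw [this]; norm_num
    rw [hc]
    rw [Finset.sum_insert (by decide), Finset.sum_insert (by decide),
      Finset.sum_insert (by decide), Finset.sum_singleton]
    have h20 : Complex.exp (-2 * Real.pi * Complex.I * ξ * ((20 : ℕ) : ℂ)) =
        Complex.exp (-2 * Real.pi * Complex.I * ((4 * ξ : ℝ) : ℂ)) *
        Complex.exp (-2 * Real.pi * Complex.I * ((16 * ξ : ℝ) : ℂ)) := by
      rw [← Complex.exp_add]; congr 1; push_cast; ring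
    have h4 : Complex.exp (-2 * Real.pi * Complex.I * ξ * ((4 : ℕ) : ℂ)) =
        Complex.exp (-2 * Real.pi * Complex.I * ((4 * ξ : ℝ) : ℂ)) := by
      congr 1; push_cast; ring
    have h16 : Complex.exp (-2 * Real.pi * Complex.I * ξ * ((16 : ℕ) : ℂ)) =
        Complex.exp (-2 * Real.pi * Complex.I * ((16 * ξ : ℝ) : ℂ)) := by
      congr 1; push_cast; ring
    have h0 : Complex.exp (-2 * Real.pi * Complex.I * ξ * ((0 : ℕ) : ℂ)) = 1 := by simp
    rw [h20, h4, h16, h0]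
    ring
  rw [key, ← exp_neg_one, ← exp_neg_one]
  constructor
  · intro h
    rcases mul_eq_zero.1 h with h | h
    · norm_num at h
    · rcases mul_eq_zero.1 h with h | h
      · left; exact eq_neg_of_add_eq_zero_left h
      · right; exact eq_neg_of_add_eq_zero_left h
  · rintro (h | h) <;> rw [h] <;> ring

lemma three_dvd (d : ℕ) (hd : d ∈ B) : ∃ k : ℤ, (d : ℤ) = 3 * k := by
  have : d = 0 ∨ d = 3 ∨ d = 18 ∨ d = 21 := by
    simpa [B] using hd
  rcases this with rfl | rfl | rfl | rfl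
  · exact ⟨0, by norm_num⟩
  · exact ⟨1, by norm_num⟩
  · exact ⟨6, by norm_num⟩
  · exact ⟨7, by norm_num⟩

/-- difference `≡ 3 mod 6`. -/
lemma left_case (b b' : ℕ) (n : ℤ) (h : (b : ℤ) - b' = 3 + 6 * n) :
    nuHat A (((b : ℝ) - b') / (24 : ℕ)) = 0 := by
  rw [nuHat_A]
  left
  refine ⟨n, ?_⟩
  have h' : (b : ℝ) - b' = 3 + 6 * n := by exact_mod_cast h
  rw [h']; push_cast; ring

/-- difference `± 18`. -/
lemma right_case (b b' : ℕ) (s : ℤ) (h : (b : ℤ) - b' = 18 + 36 * s) :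
    ∀ d ∈ B, ∀ d' ∈ B, nuHat A (((b : ℝ) - b') / ((24 : ℕ) : ℝ) ^ 2 +
      ((d : ℝ) - d') / (24 : ℕ)) = 0 := by
  intro d hd d' hd'
  obtain ⟨k, hk⟩ := three_dvd d hd
  obtain ⟨k', hk'⟩ := three_dvd d' hd'
  rw [nuHat_A]
  right
  refine ⟨s + 2 * (k - k'), ?_⟩
  have h' : (b : ℝ) - b' = 18 + 36 * s := by exact_mod_cast h
  have e1 : (d : ℝ) = 3 * k := by exact_mod_cast hk
  have e2 : (d' : ℝ) = 3 * k' := by exact_mod_cast hk'
  rw [h', e1, e2]; push_cast; ring

lemma distributed : Distributed 24 A B := by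
  intro b hb b' hb' hne
  have h1 : b = 0 ∨ b = 3 ∨ b = 18 ∨ b = 21 := by simpa [B] using hb
  have h2 : b' = 0 ∨ b' = 3 ∨ b' = 18 ∨ b' = 21 := by simpa [B] using hb'
  rcases h1 with rfl | rfl | rfl | rfl <;> rcases h2 with rfl | rfl | rfl | rfl
  · exact absurd rfl hne
  · exact Or.inl (left_case _ _ (-1) (by norm_num))
  · exact Or.inr (right_case _ _ (-1) (by norm_num))
  · exact Or.inl (left_case _ _ (-4) (by norm_num))
  · exact Or.inl (left_case _ _ 0 (by norm_num))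
  · exact absurd rfl hne
  · exact Or.inl (left_case _ _ (-3) (by norm_num))
  · exact Or.inr (right_case _ _ (-1) (by norm_num))
  · exact Or.inr (right_case _ _ 0 (by norm_num))
  · exact Or.inl (left_case _ _ 2 (by norm_num))
  · exact absurd rfl hne
  · exact Or.inl (left_case _ _ (-1) (by norm_num))
  · exact Or.inl (left_case _ _ 3 (by norm_num))
  · exact Or.inr (right_case _ _ 0 (by norm_num))
  · exact Or.inl (left_case _ _ 0 (by norm_num))
  · exact absurd rfl hne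

/-- **Q1 is false**, with `M = 24`, `A = {0, 4, 16, 20}` and `B = {0, 3, 18, 21}`. -/
theorem result :
    ∃ (M : ℕ) (A B : Finset ℕ), 3 ≤ M ∧ (∀ a ∈ A, a < M) ∧ (∀ b ∈ B, b < M) ∧
      A.card = B.card ∧ 1 < A.card ∧ A.card < M ∧
      Distributed M A B ∧ ¬ SpectralPair M A B ∧ ¬ SpectralPair (M ^ 2) A B := by
  refine ⟨24, A, B, by norm_num, by decide, by decide, by decide, by decide, by decide,
    distributed, ?_, ?_⟩
  · intro h
    have := h 18 (by decide) 0 (by decide) (by norm_num)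
    rw [nuHat_A] at this
    rcases this with ⟨n, hn⟩ | ⟨n, hn⟩
    · have : (6 : ℝ) = 1 + 2 * n := by push_cast at hn; linarith
      have : (6 : ℤ) = 1 + 2 * n := by exact_mod_cast this
      omega
    · have : (24 : ℝ) = 1 + 2 * n := by push_cast at hn; linarith
      have : (24 : ℤ) = 1 + 2 * n := by exact_mod_cast this
      omega
  · intro h
    have := h 3 (by decide) 0 (by decide) (by norm_num)
    rw [nuHat_A] at this
    rcases this with ⟨n, hn⟩ | ⟨n, hn⟩
    · have : (1 : ℝ) = 24 + 48 * n := by push_cast at hn; linarith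
      have : (1 : ℤ) = 24 + 48 * n := by exact_mod_cast this
      omega
    · have : (1 : ℝ) = 6 + 12 * n := by push_cast at hn; linarith
      have : (1 : ℤ) = 6 + 12 * n := by exact_mod_cast this
      omega

end Pool.Agent.Results.MP_2c87a3_an.DistributedNotSpectral
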